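import Mathlib
import Pool.Agent.helper45.Span.Basic

/-!
# Transitive groups of homeomorphisms of a continuum: finite sets or positive span

`X` is a compact connected metric space and `G` is a group of homeomorphisms of `X` which acts
transitively. If there are a finite set `F` and a non-empty open set `U` such that no element of
`G` moves `F` into `U`, then `X` has positive surjective span.
-/

set_option autoImplicit false

namespace Pool.Agent.Results.MP_910948_gt.FiniteSetsOrSpan

theorem result (X : Type) [MetricSpace X] [CompactSpace X] [ConnectedSpace X]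
    (G : Subgroup (X ≃ₜ X)) (hG : ∀ x y : X, ∃ g ∈ G, g x = y)
    (F U : Set X) (hF : F.Finite) (hU : IsOpen U) (hne : U.Nonempty)
    (h : ∀ g ∈ G, ¬ g '' F ⊆ U) :
    ∃ (x y : X) (c : ℝ) (Z : Set (X × X)), 0 < c ∧ (∀ g ∈ G, c ≤ dist (g x) (g y)) ∧
      (x, y) ∈ Z ∧ IsCompact Z ∧ IsConnected Z ∧ Prod.fst '' Z = Set.univ ∧
      Prod.snd '' Z = Set.univ ∧ ∀ p ∈ Z, c ≤ dist p.1 p.2 :=
  Pool.Agent.helper45.Span.main G hG hF hU hne h

end Pool.Agent.Results.MP_910948_gt.FiniteSetsOrSpan
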